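import Pool.Agent.P.MP_3c7b76_co.G.Top2

namespace Pool.Agent.Results.MP_3c7b76_co.Full

/-- For any `n` points in the plane and any graph on them with `m` edges, drawn with straight
segments, some line meets at least `m ^ 2 / n ^ 2` of the edge segments. -/
theorem result :
  ∀ (n : ℕ) (p : Fin n → EuclideanSpace ℝ (Fin 2)) (G : SimpleGraph (Fin n)),
    ∃ L : AffineSubspace ℝ (EuclideanSpace ℝ (Fin 2)),
      Module.finrank ℝ L.direction = 1 ∧
      ((G.edgeSet.ncard : ℝ) ^ 2 / (n : ℝ) ^ 2 ≤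
        (({q : Fin n × Fin n | q.1 < q.2 ∧ G.Adj q.1 q.2 ∧
            ((L : Set (EuclideanSpace ℝ (Fin 2))) ∩
              segment ℝ (p q.1) (p q.2)).Nonempty}).ncard : ℝ)) :=
  Pool.Agent.P.MP_3c7b76_co.G.full'

end Pool.Agent.Results.MP_3c7b76_co.Full
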